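import Pool.Agent.H537R2.Apsr.Graph

/-!
# The main counting theorem for the hard graphs
-/

set_option linter.unusedSectionVars false
set_option maxHeartbeats 400000

namespace Pool.Agent.H537R2.Apsr

open Finset
open Pool.Agent.H537R2.Apsp (Prog Graph walkWeight dist SolvesAPSP)
open Pool.Agent.H537R2.Apsq (cnt cnt_mono cnt_nonneg cnt_congr cnt_avoid Cons cnt_split cnt_eq
  cnt_hit)

section

variable {B : Type} [Fintype B] [DecidableEq B] {n : ℕ}

theorem cnt_exists {T : Type} (S : Finset T) (P : T → (B → Fin n) → Prop) :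
    cnt (fun y => ∃ t ∈ S, P t y) ≤ ∑ t ∈ S, cnt (P t) := by
  classical
  induction S using Finset.induction_on with
  | empty =>
    simp only [sum_empty]
    have : cnt (fun y : B → Fin n => ∃ t ∈ (∅ : Finset T), P t y) = 0 := by
      unfold cnt
      rw [Nat.cast_eq_zero, Nat.card_eq_zero]
      left
      constructor
      rintro ⟨y, t, ht, _⟩
      exact absurd ht (notMem_empty _)
    rw [this]
  | insert t S ht ih =>
    rw [sum_insert ht, cnt_split _ (P t)]
    apply add_le_add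
    · exact cnt_mono fun y h => h.2
    · refine le_trans (cnt_mono ?_) ih
      rintro y ⟨⟨t', ht', h1⟩, h2⟩
      rcases mem_insert.1 ht' with h3 | h3
      · rw [h3] at h1
        exact absurd h1 h2
      · exact ⟨t', h3, h1⟩

end

variable {c n M N : ℕ}

theorem cnt_conn (hM : 0 < M) (K : ℕ → Fin n → Finset (Fin n)) (hK : ∀ s i, #(K s i) ≤ 2 ^ s)
    (hc : 8 * ((c + 1) * 2 ^ c) ≤ M) (i j : Fin n) :
    8 * cnt (fun x : Jx c n → Fin M => Conn K x i j) ≤ cnt (fun _ : Jx c n → Fin M => True) := by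
  classical
  set A := cnt (fun _ : Jx c n → Fin M => True) with hA
  have hA0 : 0 ≤ A := cnt_nonneg _
  have hM' : (0 : ℝ) < M := by exact_mod_cast hM
  have h1 : cnt (fun x : Jx c n → Fin M => Conn K x i j) ≤
      ∑ s : Fin (c + 1), ∑ v ∈ K s i, ∑ u ∈ K (c - s) j, (1 / M * A) := by
    have h2 : cnt (fun x : Jx c n → Fin M => Conn K x i j) =
        cnt (fun x : Jx c n → Fin M => ∃ s ∈ (univ : Finset (Fin (c + 1))), ∃ v ∈ K s i,
          ∃ u ∈ K (c - s) j, (x (s, (v, u))).1 = 0) := by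
      apply cnt_congr
      intro x
      constructor
      · rintro ⟨s, v, u, h3, h4, h6⟩
        exact ⟨s, mem_univ _, v, h3, u, h6, h4⟩
      · rintro ⟨s, _, v, h3, u, h6, h4⟩
        exact ⟨s, v, u, h3, h4, h6⟩
    rw [h2]
    refine (cnt_exists _ _).trans (sum_le_sum fun s _ => ?_)
    refine (cnt_exists _ _).trans (sum_le_sum fun v _ => ?_)
    refine (cnt_exists _ _).trans (sum_le_sum fun u _ => ?_)
    have h3 := cnt_hit (B := Jx c n) hM (s, (v, u)) (fun _ => True) (fun _ _ _ => trivial)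
    rw [← hA] at h3
    rw [← h3]
    exact (cnt_congr fun x => by tauto).le
  have h2 : ∑ s : Fin (c + 1), ∑ v ∈ K s i, ∑ u ∈ K (c - s) j,
      (1 / M * A) ≤ ∑ s : Fin (c + 1), (2 : ℝ) ^ c * (1 / M * A) := by
    refine sum_le_sum fun s _ => ?_
    simp only [sum_const, nsmul_eq_mul]
    have h3 : (#(K s i) : ℝ) ≤ 2 ^ (s : ℕ) := by exact_mod_cast hK s i
    have h4 : (#(K (c - s) j) : ℝ) ≤ 2 ^ (c - (s : ℕ)) := by exact_mod_cast hK (c - s) j
    have h5 : (2 : ℝ) ^ c = 2 ^ (s : ℕ) * 2 ^ (c - (s : ℕ)) := by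
      rw [← pow_add]; congr 1; omega
    have h6 : (0 : ℝ) ≤ 1 / M * A := by positivity
    rw [h5]
    calc (#(K s i) : ℝ) * ((#(K (c - s) j) : ℝ) * (1 / M * A))
        ≤ 2 ^ (s : ℕ) * (2 ^ (c - (s : ℕ)) * (1 / M * A)) := by gcongr
      _ = _ := by ring
  rw [sum_const, nsmul_eq_mul, card_univ, Fintype.card_fin] at h2
  have h3 : (8 : ℝ) * ((c + 1 : ℕ) * 2 ^ c) ≤ M := by exact_mod_cast hc
  calc 8 * cnt (fun x : Jx c n → Fin M => Conn K x i j)
      ≤ 8 * (((c + 1 : ℕ) : ℝ) * ((2 : ℝ) ^ c * (1 / M * A))) := by linarith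
    _ = (8 * ((c + 1 : ℕ) * 2 ^ c)) / M * A := by field_simp
    _ ≤ M / M * A := by gcongr
    _ = A := by rw [div_self hM'.ne', one_mul]

open Classical in
theorem cnt_many (hn : 0 < n) (hM : 0 < M) (K : ℕ → Fin n → Finset (Fin n))
    (hK : ∀ s i, #(K s i) ≤ 2 ^ s) (hc : 8 * ((c + 1) * 2 ^ c) ≤ M) :
    4 * cnt (fun x : Jx c n → Fin M =>
      n ^ 2 < 2 * #(univ.filter (fun p : Fin n × Fin n => Conn K x p.1 p.2))) ≤
      cnt (fun _ : Jx c n → Fin M => True) := by
  rw [cnt_eq]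
  set W := univ.filter (fun x : Jx c n → Fin M =>
      n ^ 2 < 2 * #(univ.filter (fun p : Fin n × Fin n => Conn K x p.1 p.2))) with hW
  have h1 : ∑ x : Jx c n → Fin M, #(univ.filter (fun p : Fin n × Fin n => Conn K x p.1 p.2)) =
      ∑ p : Fin n × Fin n, #(univ.filter (fun x : Jx c n → Fin M => Conn K x p.1 p.2)) := by
    simp only [Finset.card_filter]
    exact sum_comm
  have h2 : #W * n ^ 2 ≤ 2 * ∑ x : Jx c n → Fin M,
      #(univ.filter (fun p : Fin n × Fin n => Conn K x p.1 p.2)) := by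
    calc #W * n ^ 2 = ∑ x ∈ W, n ^ 2 := by simp
      _ ≤ ∑ x ∈ W, 2 * #(univ.filter (fun p : Fin n × Fin n => Conn K x p.1 p.2)) :=
          sum_le_sum fun x hx => (mem_filter.1 hx).2.le
      _ ≤ ∑ x : Jx c n → Fin M, 2 * #(univ.filter (fun p : Fin n × Fin n => Conn K x p.1 p.2)) :=
          sum_le_sum_of_subset (subset_univ _)
      _ = _ := (mul_sum _ _ _).symm
  have hn' : (0 : ℝ) < n := by exact_mod_cast hn
  set A := cnt (fun _ : Jx c n → Fin M => True) with hA
  have h3 : 8 * (∑ p : Fin n × Fin n,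
      (#(univ.filter (fun x : Jx c n → Fin M => Conn K x p.1 p.2)) : ℝ)) ≤ (n : ℝ) ^ 2 * A := by
    rw [mul_sum]
    calc _ ≤ ∑ p : Fin n × Fin n, A := sum_le_sum fun p _ => by
            have := cnt_conn hM K hK hc p.1 p.2
            rwa [cnt_eq] at this
      _ = _ := by
        rw [sum_const, card_univ, Fintype.card_prod, Fintype.card_fin, nsmul_eq_mul]
        push_cast
        ring
  have h4 : (#W : ℝ) * (n : ℝ) ^ 2 ≤ 2 * ∑ p : Fin n × Fin n,
      (#(univ.filter (fun x : Jx c n → Fin M => Conn K x p.1 p.2)) : ℝ) := by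
    rw [h1] at h2
    exact_mod_cast h2
  have h5 : (4 * (#W : ℝ)) * (n : ℝ) ^ 2 ≤ A * (n : ℝ) ^ 2 := by linarith
  exact le_of_mul_le_mul_right h5 (by positivity)

/-- The outputs of the program. -/
abbrev Outp (N : ℕ) : Type := (Fin N × Fin N) × ℕ∞

/-- Everything emitted for the pairs (source, sink) is correct. -/
def Right (K : ℕ → Fin n → Finset (Fin n)) (e : Vx c n → Fin N) (x : Jx c n → Fin M)
    (E : Set (Outp N)) : Prop :=
  ∀ i j v, ((e (.src i), e (.snk j)), v) ∈ E → v = dist (graph K e x) (e (.src i)) (e (.snk j))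

open Classical in
/-- The pairs for which the distance `⊤` is emitted. -/
noncomputable def claims (e : Vx c n → Fin N) (E : Set (Outp N)) : Finset (Fin n × Fin n) :=
  univ.filter (fun p => ((e (.src p.1), e (.snk p.2)), (⊤ : ℕ∞)) ∈ E)

theorem mem_claims (e : Vx c n → Fin N) (E : Set (Outp N)) (p : Fin n × Fin n) :
    p ∈ claims e E ↔ ((e (.src p.1), e (.snk p.2)), (⊤ : ℕ∞)) ∈ E := by
  simp only [claims, mem_filter, mem_univ, true_and]

theorem claims_union (e : Vx c n → Fin N) (E F : Set (Outp N)) :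
    #(claims e (E ∪ F)) ≤ #(claims e E) + #(claims e F) := by
  classical
  refine (card_le_card ?_).trans (card_union_le _ _)
  intro p hp
  have h := (mem_claims e _ p).1 hp
  rw [mem_union]
  rcases h with h | h
  · exact Or.inl ((mem_claims e _ p).2 h)
  · exact Or.inr ((mem_claims e _ p).2 h)

/-- The event considered for a block of steps. -/
def Suc (K : ℕ → Fin n → Finset (Fin n)) (e : Vx c n → Fin N) (y : ℕ) (E : Set (Outp N))
    (x : Jx c n → Fin M) : Prop := Right K e x E ∧ y ≤ #(claims e E)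

variable {σ : Type} (P : Prog σ (Fin N × Fin N) ℕ∞ (Outp N))

theorem block_bound (hM : 0 < M) (K : ℕ → Fin n → Finset (Fin n)) {e : Vx c n → Fin N}
    (he : Function.Injective e) (y D : ℕ) (β : ℝ) (hβ : 0 ≤ β)
    (hleaf : ∀ (Q : Finset (Jx c n)) (ρ : Jx c n → Fin M) (R : Finset (Fin n × Fin n)),
      #Q ≤ D → y ≤ #R →
      cnt (fun x : Jx c n → Fin M => Cons Q ρ x ∧ ∀ p ∈ R, ¬ Conn K x p.1 p.2) ≤
        β * cnt (Cons Q ρ)) (k t : ℕ) (s : σ) (hk : k ≤ D) :
    cnt (fun x : Jx c n → Fin M => Suc K e y (P.outs (graph K e x) t s k) x) ≤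
      β * cnt (fun _ : Jx c n → Fin M => True) := by
  classical
  have h := Prog.block P (srcN e) (fixN K e) (fun _ r => if r.1 = 0 then 1 else ⊤)
    (fun x => graph K e x) (fun x i hi => graph_none K e x i hi)
    (fun x i j hi => graph_some K e x i j hi) (Suc K e y) D β
    (by
      intro Q ρ E hQ
      change cnt (fun x => Cons Q ρ x ∧ Suc K e y E x) ≤ β * cnt (Cons Q ρ)
      by_cases hE : y ≤ #(claims e E)
      · refine le_trans (cnt_mono ?_) (hleaf Q ρ (claims e E) hQ hE)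
        rintro x ⟨h1, h2, _⟩
        refine ⟨h1, fun p hp => ?_⟩
        rw [← dist_eq_top_iff K x he]
        exact (h2 _ _ _ ((mem_claims e _ p).1 hp)).symm
      · have h1 : cnt (fun x => Cons Q ρ x ∧ Suc K e y E x) = 0 := by
          unfold cnt
          rw [Nat.cast_eq_zero, Nat.card_eq_zero]
          left
          constructor
          rintro ⟨x, _, hx⟩
          exact hE hx.2
        rw [h1]
        exact mul_nonneg hβ (cnt_nonneg _))
    k t s ∅ (fun _ => ⟨0, hM⟩) ∅ (by simpa using hk)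
  have h2 : cnt (fun x : Jx c n → Fin M => (∀ j ∈ (∅ : Finset (Jx c n)), x j = ⟨0, hM⟩) ∧
      Suc K e y (∅ ∪ P.outs (graph K e x) t s k) x) ≤
      β * cnt (fun x : Jx c n → Fin M => ∀ j ∈ (∅ : Finset (Jx c n)), x j = ⟨0, hM⟩) := h
  refine le_trans (cnt_mono ?_) (h2.trans (mul_le_mul_of_nonneg_left (cnt_mono ?_) hβ))
  · intro x hx
    refine ⟨by simp, ?_⟩
    rwa [Set.empty_union]
  · intro x _
    trivial

/-- Either the input is exceptional, or some block is successful. -/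
theorem some_block (K : ℕ → Fin n → Finset (Fin n)) {e : Vx c n → Fin N}
    (he : Function.Injective e) (y B D T : ℕ) (hT : T ≤ (B + 1) * D)
    (hB : 2 * ((B + 1) * y) ≤ n ^ 2) (x : Jx c n → Fin M) (hx : SolvesAPSP P T (graph K e x))
    [DecidablePred fun p : Fin n × Fin n => Conn K x p.1 p.2]
    (h3 : 2 * #(univ.filter (fun p : Fin n × Fin n => Conn K x p.1 p.2)) ≤ n ^ 2) :
    ∃ i ∈ range (B + 1), ∃ s : σ, Suc K e y (P.outs (graph K e x) (0 + i * D) s
      (min D (T - i * D))) x := by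
  classical
  have hright : Right K e x (P.outs (graph K e x) 0 P.init T) := by
    intro i j v hv
    exact (hx _ _ _).1 hv
  have hcl : (univ.filter (fun p : Fin n × Fin n => ¬ Conn K x p.1 p.2)) ⊆
      claims e (P.outs (graph K e x) 0 P.init T) := by
    intro p hp
    have hp' := (mem_filter.1 hp).2
    refine (mem_claims e _ p).2 ((hx _ _ _).2 ?_)
    exact ((dist_eq_top_iff K x he p.1 p.2).2 hp').symm
  have hcount : (B + 1) * y ≤ #(claims e (P.outs (graph K e x) 0 P.init T)) := by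
    have h4 := card_le_card hcl
    have h5 := Finset.card_filter_add_card_filter_not (s := (univ : Finset (Fin n × Fin n)))
      (fun p => Conn K x p.1 p.2)
    rw [card_univ, Fintype.card_prod, Fintype.card_fin] at h5
    have h6 : n * n = n ^ 2 := by ring
    omega
  obtain ⟨i, hi, s, hg, hc⟩ := Prog.exists_block P (graph K e x) (Right K e x)
    (by
      intro E F h
      exact ⟨fun i j v hv => h i j v (Or.inl hv), fun i j v hv => h i j v (Or.inr hv)⟩)
    (fun E => #(claims e E)) (claims_union e) D y B 0 P.init T hT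
    hcount hright
  exact ⟨i, mem_range.2 hi, s, hg, hc⟩

/-- The main counting theorem. -/
theorem core [Fintype σ] (hn : 0 < n) (hM : 0 < M) (K : ℕ → Fin n → Finset (Fin n))
    (hK : ∀ s i, #(K s i) ≤ 2 ^ s) (hc : 8 * ((c + 1) * 2 ^ c) ≤ M) {e : Vx c n → Fin N}
    (he : Function.Injective e) (y D : ℕ) (β : ℝ) (hβ : 0 ≤ β)
    (hleaf : ∀ (Q : Finset (Jx c n)) (ρ : Jx c n → Fin M) (R : Finset (Fin n × Fin n)),
      #Q ≤ D → y ≤ #R →
      cnt (fun x : Jx c n → Fin M => Cons Q ρ x ∧ ∀ p ∈ R, ¬ Conn K x p.1 p.2) ≤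
        β * cnt (Cons Q ρ)) (B T : ℕ) (hT : T ≤ (B + 1) * D)
    (hB : 2 * ((B + 1) * y) ≤ n ^ 2)
    (hβ2 : 8 * (((B + 1 : ℕ) : ℝ) * Fintype.card σ * β) ≤ 1) :
    2 * cnt (fun x : Jx c n → Fin M => SolvesAPSP P T (graph K e x)) ≤
      cnt (fun _ : Jx c n → Fin M => True) := by
  classical
  set A := cnt (fun _ : Jx c n → Fin M => True) with hA
  have hA0 : 0 ≤ A := cnt_nonneg _
  have t1 := cnt_many (c := c) hn hM K hK hc
  rw [← hA] at t1
  have t2 : cnt (fun x : Jx c n → Fin M => SolvesAPSP P T (graph K e x)) ≤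
      cnt (fun x : Jx c n → Fin M =>
        n ^ 2 < 2 * #(univ.filter (fun p : Fin n × Fin n => Conn K x p.1 p.2))) +
      cnt (fun x : Jx c n → Fin M => ∃ i ∈ range (B + 1), ∃ s ∈ (univ : Finset σ),
        Suc K e y (P.outs (graph K e x) (0 + i * D) s (min D (T - i * D))) x) := by
    rw [cnt_split _ (fun x : Jx c n → Fin M =>
        n ^ 2 < 2 * #(univ.filter (fun p : Fin n × Fin n => Conn K x p.1 p.2)))]
    apply add_le_add
    · exact cnt_mono fun x h => h.2
    · apply cnt_mono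
      rintro x ⟨h1, h2⟩
      obtain ⟨i, hi, s, hs⟩ := some_block P K he y B D T hT hB x h1 (not_lt.1 h2)
      exact ⟨i, hi, s, mem_univ _, hs⟩
  have t3 : cnt (fun x : Jx c n → Fin M => ∃ i ∈ range (B + 1), ∃ s ∈ (univ : Finset σ),
        Suc K e y (P.outs (graph K e x) (0 + i * D) s (min D (T - i * D))) x) ≤
      ∑ i ∈ range (B + 1), ∑ s : σ, β * A := by
    refine (cnt_exists _ _).trans (sum_le_sum fun i _ => ?_)
    refine (cnt_exists _ _).trans (sum_le_sum fun s _ => ?_)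
    exact block_bound P hM K he y D β hβ hleaf _ _ s (min_le_left _ _)
  rw [sum_const, sum_const, card_range, card_univ, nsmul_eq_mul, nsmul_eq_mul] at t3
  have t4 : 8 * (((B + 1 : ℕ) : ℝ) * ((Fintype.card σ : ℝ) * (β * A))) ≤ A := by
    calc _ = 8 * (((B + 1 : ℕ) : ℝ) * Fintype.card σ * β) * A := by ring
      _ ≤ 1 * A := mul_le_mul_of_nonneg_right hβ2 hA0
      _ = A := one_mul A
  linarith

end Pool.Agent.H537R2.Apsr
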