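import Pool.Agent.H537R2.Apsq.Exp
import Pool.Agent.H537R2.Apsq.Dyadic
import Pool.Agent.H537R2.Apsq.Count

/-!
# The bound at the leaves
-/

set_option linter.unusedSectionVars false
set_option linter.unusedVariables false
set_option maxHeartbeats 400000

namespace Pool.Agent.H537R2.Apsr

open Finset
open Pool.Agent.H537R2.Apsq (cnt cnt_mono cnt_nonneg cnt_congr cnt_avoid Cons dyadic exists_family)

/-- The index set of the unknown entries. -/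
abbrev Jx (c n : ℕ) : Type := Fin (c + 1) × (Fin n × Fin n)

/-- The source `i` and the sink `j` are connected, through one of the scales. -/
def Conn {c n M : ℕ} (K : ℕ → Fin n → Finset (Fin n)) (x : Jx c n → Fin M) (i j : Fin n) : Prop :=
  ∃ (s : Fin (c + 1)) (v u : Fin n), v ∈ K s i ∧ (x (s, (v, u))).1 = 0 ∧ u ∈ K (c - s) j

variable {c n M : ℕ} (K : ℕ → Fin n → Finset (Fin n))

theorem leaf_scale (hM : 0 < M) (Q : Finset (Jx c n)) (ρ : Jx c n → Fin M) (s : Fin (c + 1))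
    (I : Finset (Fin n)) (J : Fin n → Finset (Fin n)) (F a b g : ℕ) (hF : 0 < F)
    (hU : a ≤ F * #(I.biUnion (K s)))
    (hL : ∀ i ∈ I, b ≤ F * #((J i).biUnion (K (c - s))))
    (hg : F * F * g ≤ a * b) (hQ : 2 * #Q ≤ g) :
    cnt (fun x : Jx c n → Fin M => Cons Q ρ x ∧ ∀ i ∈ I, ∀ j ∈ J i, ¬ Conn K x i j) ≤
      Real.exp (-((g : ℝ) / (2 * M))) * cnt (Cons Q ρ) := by
  classical
  set Un := I.biUnion (K s) with hUn
  have hι : ∀ v : Fin n, ∃ i : Fin n, v ∈ Un → i ∈ I ∧ v ∈ K s i := by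
    intro v
    by_cases hv : v ∈ Un
    · obtain ⟨i, hi, hvi⟩ := mem_biUnion.1 hv
      exact ⟨i, fun _ => ⟨hi, hvi⟩⟩
    · exact ⟨v, fun h => absurd h hv⟩
  choose ι hι using hι
  set L : Fin n → Finset (Fin n) := fun i => (J i).biUnion (K (c - s)) with hLdef
  set G : Finset (Jx c n) := (Un.sigma (fun v => L (ι v))).image
    (fun p : (_ : Fin n) × Fin n => (s, (p.1, p.2))) with hG
  have hGc : #G = ∑ v ∈ Un, #(L (ι v)) := by
    rw [hG, card_image_of_injective, card_sigma]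
    rintro ⟨v, u⟩ ⟨v', u'⟩ h
    simp only [Prod.mk.injEq, true_and] at h
    obtain ⟨rfl, rfl⟩ := h
    rfl
  have hGg : g ≤ #G := by
    have h1 : F * F * g ≤ F * F * #G := by
      calc F * F * g ≤ a * b := hg
        _ ≤ (F * #Un) * b := Nat.mul_le_mul_right _ hU
        _ = F * ∑ v ∈ Un, b := by rw [sum_const, smul_eq_mul]; ring
        _ ≤ F * ∑ v ∈ Un, F * #(L (ι v)) :=
            Nat.mul_le_mul_left _ (sum_le_sum fun v hv => hL (ι v) (hι v hv).1)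
        _ = F * F * #G := by rw [hGc, ← mul_sum]; ring
    exact Nat.le_of_mul_le_mul_left h1 (by positivity)
  set G' := G \ Q with hG'
  have hG'g : g ≤ 2 * #G' := by
    have h0 : #G - #Q ≤ #G' := le_card_sdiff Q G
    omega
  have h1 : cnt (fun x : Jx c n → Fin M => Cons Q ρ x ∧ ∀ i ∈ I, ∀ j ∈ J i, ¬ Conn K x i j) ≤
      cnt (fun x : Jx c n → Fin M => Cons Q ρ x ∧ ∀ q ∈ G', ¬ (x q).1 = 0) := by
    apply cnt_mono
    rintro x ⟨h2, h3⟩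
    refine ⟨h2, fun q hq h4 => ?_⟩
    obtain ⟨hq1, _⟩ := mem_sdiff.1 hq
    obtain ⟨⟨v, u⟩, hp, rfl⟩ := mem_image.1 hq1
    obtain ⟨hv, hu⟩ := mem_sigma.1 hp
    simp only at hv hu h4
    obtain ⟨j, hj, huj⟩ := mem_biUnion.1 hu
    exact h3 (ι v) (hι v hv).1 j hj ⟨s, v, u, (hι v hv).2, h4, huj⟩
  rw [cnt_avoid hM Q ρ G' (fun q hq => (mem_sdiff.1 hq).2)] at h1
  refine h1.trans (mul_le_mul_of_nonneg_right ?_ (cnt_nonneg _))
  have hM' : (0 : ℝ) < M := by exact_mod_cast hM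
  have hM1 : (1 : ℝ) ≤ M := by exact_mod_cast hM
  have hq0 : (0 : ℝ) ≤ 1 - 1 / M := by
    rw [sub_nonneg]
    exact div_le_one_of_le₀ hM1 hM'.le
  calc (1 - 1 / (M : ℝ)) ^ #G' ≤ (Real.exp (-(1 / (M : ℝ)))) ^ #G' := by
        apply pow_le_pow_left₀ hq0
        have := Real.add_one_le_exp (-(1 / (M : ℝ)))
        linarith
    _ = Real.exp (-((#G' : ℝ) / M)) := by
        rw [← Real.exp_nat_mul]; congr 1; ring
    _ ≤ Real.exp (-((g : ℝ) / (2 * M))) := by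
        apply Real.exp_le_exp.2
        rw [neg_le_neg_iff, div_le_div_iff₀ (by positivity) hM']
        have h2 : (g : ℝ) ≤ 2 * #G' := by exact_mod_cast hG'g
        calc (g : ℝ) * M ≤ (2 * #G') * M := mul_le_mul_of_nonneg_right h2 hM'.le
          _ = (#G' : ℝ) * (2 * M) := by ring

/-- Regular sub-relations with not too many rows and columns. -/
theorem dyadic' {n ℓ r : ℕ} (hn : n ≤ 2 ^ ℓ) (hℓ : 6 ≤ ℓ) (hr : r + 12 ≤ 2 * ℓ)
    (R : Finset (Fin n × Fin n)) (hR : (ℓ + 1) * 2 ^ (r + 13) ≤ #R) :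
    ∃ α b, α + b = r ∧ α + 6 ≤ ℓ ∧ b + 6 ≤ ℓ ∧ ∃ I : Finset (Fin n), #I = 2 ^ α ∧
      ∃ J : Fin n → Finset (Fin n), ∀ i ∈ I, #(J i) = 2 ^ b ∧ ∀ j ∈ J i, (i, j) ∈ R := by
  classical
  obtain ⟨α₀, b₀, h0, I₀, hI₀, J₀, hJ₀⟩ := dyadic (r := r + 12) hn R hR
  have hα : α₀ ≤ ℓ := by
    have h1 : #I₀ ≤ n := by
      calc #I₀ ≤ #(univ : Finset (Fin n)) := card_le_univ _
        _ = n := by rw [card_univ, Fintype.card_fin]
    rw [hI₀] at h1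
    exact (Nat.pow_le_pow_iff_right (by norm_num : 1 < 2)).1 (h1.trans hn)
  have hb : b₀ ≤ ℓ := by
    have hne : I₀.Nonempty := by
      rw [← card_pos, hI₀]; positivity
    obtain ⟨i, hi⟩ := hne
    have h1 : #(J₀ i) ≤ n := by
      calc #(J₀ i) ≤ #(univ : Finset (Fin n)) := card_le_univ _
        _ = n := by rw [card_univ, Fintype.card_fin]
    rw [(hJ₀ i hi).1] at h1
    exact (Nat.pow_le_pow_iff_right (by norm_num : 1 < 2)).1 (h1.trans hn)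
  obtain ⟨α, h1, h2, h3, h4, h5⟩ : ∃ α, α ≤ α₀ ∧ α + 6 ≤ ℓ ∧ α ≤ r ∧ r ≤ α + b₀ ∧
      r + 6 ≤ α + ℓ := by
    refine ⟨max (r - b₀) (r + 6 - ℓ), ?_, ?_, ?_, ?_, ?_⟩ <;> omega
  have h6 : 2 ^ α ≤ #I₀ := by
    rw [hI₀]; exact Nat.pow_le_pow_right (by norm_num) h1
  obtain ⟨I, hI, hIc⟩ := exists_subset_card_eq h6
  have h7 : ∀ i : Fin n, ∃ J : Finset (Fin n), i ∈ I → #J = 2 ^ (r - α) ∧
      ∀ j ∈ J, (i, j) ∈ R := by
    intro i
    by_cases hi : i ∈ I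
    · obtain ⟨h8, h9⟩ := hJ₀ i (hI hi)
      have h10 : 2 ^ (r - α) ≤ #(J₀ i) := by
        rw [h8]; exact Nat.pow_le_pow_right (by norm_num) (by omega)
      obtain ⟨J, hJ, hJc⟩ := exists_subset_card_eq h10
      exact ⟨J, fun _ => ⟨hJc, fun j hj => h9 j (hJ hj)⟩⟩
    · exact ⟨∅, fun h => absurd h hi⟩
  choose J hJ using h7
  exact ⟨α, r - α, by omega, h2, by omega, I, hIc, J, hJ⟩

theorem leaf {ℓ c φ r m : ℕ} (K : ℕ → Fin (2 ^ ℓ) → Finset (Fin (2 ^ ℓ)))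
    (hK : ∀ s, ∀ I : Finset (Fin (2 ^ ℓ)), 64 * (#I * 2 ^ s) ≤ 2 ^ ℓ →
      #I * 2 ^ s ≤ 2 ^ φ * #(I.biUnion (K s)))
    (hℓ : 6 ≤ ℓ) (hrc : r + c + 12 ≤ 2 * ℓ) (hφ : 2 * φ + 1 ≤ r + c)
    (Q : Finset (Jx c (2 ^ ℓ))) (ρ : Jx c (2 ^ ℓ) → Fin (2 ^ m))
    (hQ : #Q ≤ 2 ^ (r + c - 2 * φ - 1))
    (R : Finset (Fin (2 ^ ℓ) × Fin (2 ^ ℓ))) (hR : (ℓ + 1) * 2 ^ (r + 13) ≤ #R) :
    cnt (fun x : Jx c (2 ^ ℓ) → Fin (2 ^ m) => Cons Q ρ x ∧ ∀ p ∈ R, ¬ Conn K x p.1 p.2) ≤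
      Real.exp (-((2 : ℝ) ^ (r + c) / 2 ^ (2 * φ + 1 + m))) * cnt (Cons Q ρ) := by
  classical
  obtain ⟨α, b, hαb, hα, hb, I, hI, J, hJ⟩ := dyadic' le_rfl hℓ (by omega) R hR
  set s : ℕ := b + c + 6 - ℓ with hs
  have hsc : s ≤ c := by omega
  have d2 : α + s + 6 ≤ ℓ := by omega
  have d4 : b + (c - s) + 6 ≤ ℓ := by omega
  have hU : 2 ^ (α + s) ≤ 2 ^ φ * #(I.biUnion (K s)) := by
    have h1 := hK s I (by
      rw [hI, ← pow_add]
      calc 64 * 2 ^ (α + s) = 2 ^ (α + s + 6) := by rw [pow_add _ (α + s)]; norm_num; ring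
        _ ≤ 2 ^ ℓ := Nat.pow_le_pow_right (by norm_num) d2)
    rwa [hI, ← pow_add] at h1
  have hL : ∀ i ∈ I, 2 ^ (b + (c - s)) ≤ 2 ^ φ * #((J i).biUnion (K (c - s))) := by
    intro i hi
    have h1 := hK (c - s) (J i) (by
      rw [(hJ i hi).1, ← pow_add]
      calc 64 * 2 ^ (b + (c - s)) = 2 ^ (b + (c - s) + 6) := by
            rw [pow_add _ (b + (c - s))]; norm_num; ring
        _ ≤ 2 ^ ℓ := Nat.pow_le_pow_right (by norm_num) d4)
    rwa [(hJ i hi).1, ← pow_add] at h1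
  have key := leaf_scale K (by positivity) Q ρ ⟨s, by omega⟩ I J (2 ^ φ) (2 ^ (α + s))
    (2 ^ (b + (c - s))) (2 ^ (r + c - 2 * φ)) (by positivity) hU hL
    (by
      rw [← pow_add, ← pow_add, ← pow_add]
      exact Nat.pow_le_pow_right (by norm_num) (by omega))
    (by
      calc 2 * #Q ≤ 2 * 2 ^ (r + c - 2 * φ - 1) := Nat.mul_le_mul_left _ hQ
        _ = 2 ^ (r + c - 2 * φ) := by rw [← pow_succ']; congr 1; omega)
  refine le_trans (cnt_mono ?_) (key.trans ?_)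
  · rintro x ⟨h1, h2⟩
    exact ⟨h1, fun i hi j hj => h2 (i, j) ((hJ i hi).2 j hj)⟩
  · apply mul_le_mul_of_nonneg_right _ (cnt_nonneg _)
    apply Real.exp_le_exp.2
    rw [neg_le_neg_iff]
    push_cast
    rw [div_le_div_iff₀ (by positivity) (by positivity)]
    have h1 : (2 : ℝ) ^ (r + c) * (2 * 2 ^ m) = 2 ^ (r + c - 2 * φ) * 2 ^ (2 * φ + 1 + m) := by
      rw [← pow_succ', ← pow_add, ← pow_add]
      congr 1
      omega
    rw [h1]

end Pool.Agent.H537R2.Apsr
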