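import Pool.Agent.H537R2.Apsp.Block
import Pool.Agent.H537R2.Apsr.Leaf

/-!
# The hard graphs
-/

set_option linter.unusedSectionVars false
set_option maxHeartbeats 400000

namespace Pool.Agent.H537R2.Apsr

open Finset
open Pool.Agent.H537R2.Apsp (Prog Graph walkWeight dist SolvesAPSP)

/-- The vertices of the hard graphs: sources, sinks and two layers for every scale. -/
inductive Vx (c n : ℕ) : Type
  | src (i : Fin n) : Vx c n
  | snk (j : Fin n) : Vx c n
  | m0 (s : Fin (c + 1)) (v : Fin n) : Vx c n
  | m1 (s : Fin (c + 1)) (u : Fin n) : Vx c n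

variable {c n M N : ℕ}

/-- A code for the vertices. -/
def Vx.code : Vx c n → (Fin n ⊕ Fin n) ⊕ (Fin 2 × (Fin (c + 1) × Fin n))
  | .src i => Sum.inl (Sum.inl i)
  | .snk j => Sum.inl (Sum.inr j)
  | .m0 s v => Sum.inr (0, (s, v))
  | .m1 s v => Sum.inr (1, (s, v))

theorem Vx.code_injective : Function.Injective (Vx.code (c := c) (n := n)) := by
  intro a b h
  cases a <;> cases b <;> simp_all [Vx.code]

theorem exists_embedding (h : 2 * n + 2 * ((c + 1) * n) ≤ N) :
    ∃ e : Vx c n → Fin N, Function.Injective e := by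
  have h1 : Fintype.card ((Fin n ⊕ Fin n) ⊕ (Fin 2 × (Fin (c + 1) × Fin n))) ≤
      Fintype.card (Fin N) := by
    simp only [Fintype.card_sum, Fintype.card_prod, Fintype.card_fin]
    omega
  obtain ⟨f⟩ := Function.Embedding.nonempty_of_card_le h1
  exact ⟨fun a => f a.code, fun a b hab => Vx.code_injective (f.injective hab)⟩

/-- The unknown entry which determines the weight. -/
def cell : Vx c n → Vx c n → Option (Jx c n)
  | .m0 s v, .m1 s' u => if s = s' then some (s, (v, u)) else none
  | _, _ => none

/-- The known weights. -/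
def fixd (K : ℕ → Fin n → Finset (Fin n)) : Vx c n → Vx c n → ℕ∞
  | .src i, .m0 s v => if v ∈ K s i then 1 else ⊤
  | .m1 s u, .snk j => if u ∈ K (c - s) j then 1 else ⊤
  | _, _ => ⊤

/-- The weight of a pair of vertices. -/
def wt (K : ℕ → Fin n → Finset (Fin n)) (x : Jx c n → Fin M) (a b : Vx c n) : ℕ∞ :=
  match cell a b with
  | some j => if (x j).1 = 0 then 1 else ⊤
  | none => fixd K a b

open Classical in
/-- The vertex with the given number. -/
noncomputable def dec (e : Vx c n → Fin N) (p : Fin N) : Option (Vx c n) :=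
  if h : ∃ a, e a = p then some h.choose else none

theorem dec_eq {e : Vx c n → Fin N} (he : Function.Injective e) (a : Vx c n) :
    dec e (e a) = some a := by
  have h : ∃ b, e b = e a := ⟨a, rfl⟩
  unfold dec
  rw [dif_pos h]
  exact congrArg some (he h.choose_spec)

theorem of_dec {e : Vx c n → Fin N} {p : Fin N} {a : Vx c n} (h : dec e p = some a) :
    p = e a := by
  unfold dec at h
  split at h
  · rename_i h1
    have h2 := h1.choose_spec
    rw [Option.some.injEq] at h
    rw [h] at h2
    exact h2.symm
  · cases h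

/-- The unknown entry which determines an entry of the matrix of the graph. -/
noncomputable def srcN (e : Vx c n → Fin N) (p : Fin N × Fin N) : Option (Jx c n) :=
  match dec e p.1, dec e p.2 with
  | some a, some b => cell a b
  | _, _ => none

/-- The known entries of the matrix of the graph. -/
noncomputable def fixN (K : ℕ → Fin n → Finset (Fin n)) (e : Vx c n → Fin N)
    (p : Fin N × Fin N) : ℕ∞ :=
  match dec e p.1, dec e p.2 with
  | some a, some b => fixd K a b
  | _, _ => ⊤

/-- The hard graph. -/
noncomputable def graph (K : ℕ → Fin n → Finset (Fin n)) (e : Vx c n → Fin N)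
    (x : Jx c n → Fin M) : Graph N := fun p =>
  match dec e p.1, dec e p.2 with
  | some a, some b => wt K x a b
  | _, _ => ⊤

variable (K : ℕ → Fin n → Finset (Fin n)) (e : Vx c n → Fin N) (x : Jx c n → Fin M)

theorem graph_none (p : Fin N × Fin N) (h : srcN e p = none) : graph K e x p = fixN K e p := by
  unfold srcN at h
  unfold graph fixN
  cases h1 : dec e p.1 with
  | none => rfl
  | some a =>
    cases h2 : dec e p.2 with
    | none => rfl
    | some b =>
      rw [h1, h2] at h
      simp only at h ⊢
      unfold wt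
      rw [h]

theorem graph_some (p : Fin N × Fin N) (j : Jx c n) (h : srcN e p = some j) :
    graph K e x p = if (x j).1 = 0 then 1 else ⊤ := by
  unfold srcN at h
  unfold graph
  cases h1 : dec e p.1 with
  | none => rw [h1] at h; simp at h
  | some a =>
    cases h2 : dec e p.2 with
    | none => rw [h1, h2] at h; simp at h
    | some b =>
      rw [h1, h2] at h
      simp only at h ⊢
      unfold wt
      rw [h]

theorem wt_eq (a b : Vx c n) : wt K x a b = 1 ∨ wt K x a b = ⊤ := by
  unfold wt
  cases cell a b with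
  | none =>
    simp only
    cases a <;> cases b <;> simp [fixd] <;> tauto
  | some j =>
    simp only
    by_cases h : (x j).1 = 0
    · rw [if_pos h]; exact Or.inl rfl
    · rw [if_neg h]; exact Or.inr rfl

theorem graph_eq (p : Fin N × Fin N) : graph K e x p = 1 ∨ graph K e x p = ⊤ := by
  unfold graph
  cases dec e p.1 with
  | none => exact Or.inr rfl
  | some a =>
    cases dec e p.2 with
    | none => exact Or.inr rfl
    | some b => exact wt_eq K x a b

theorem graph_mk {e : Vx c n → Fin N} (he : Function.Injective e) (a b : Vx c n) :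
    graph K e x (e a, e b) = wt K x a b := by
  unfold graph
  simp only [dec_eq he]

theorem edge {e : Vx c n → Fin N} (he : Function.Injective e) {a : Vx c n} {q : Fin N}
    (h : graph K e x (e a, q) ≠ ⊤) : ∃ b, q = e b ∧ wt K x a b ≠ ⊤ := by
  unfold graph at h
  simp only [dec_eq he] at h
  cases h2 : dec e q with
  | none => rw [h2] at h; simp at h
  | some b =>
    rw [h2] at h
    exact ⟨b, of_dec h2, h⟩

theorem edge_src {i : Fin n} {b : Vx c n} (h : wt K x (.src i) b ≠ ⊤) :
    ∃ s v, b = .m0 s v ∧ v ∈ K s i := by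
  cases b with
  | m0 s v =>
    refine ⟨s, v, rfl, ?_⟩
    by_contra hcon
    apply h
    simp [wt, cell, fixd, hcon]
  | _ => exact absurd (by simp [wt, cell, fixd]) h

theorem edge_m0 {s : Fin (c + 1)} {v : Fin n} {b : Vx c n} (h : wt K x (.m0 s v) b ≠ ⊤) :
    ∃ u, b = .m1 s u ∧ (x (s, (v, u))).1 = 0 := by
  cases b with
  | m1 s' u =>
    by_cases hs : s = s'
    · subst hs
      refine ⟨u, rfl, ?_⟩
      by_contra hcon
      apply h
      simp only [wt, cell, if_true]
      rw [if_neg hcon]
    · exfalso
      apply h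
      simp [wt, cell, fixd, hs]
  | _ => exact absurd (by simp [wt, cell, fixd]) h

theorem edge_m1 {s : Fin (c + 1)} {u : Fin n} {b : Vx c n} (h : wt K x (.m1 s u) b ≠ ⊤) :
    ∃ j, b = .snk j ∧ u ∈ K (c - s) j := by
  cases b with
  | snk j =>
    refine ⟨j, rfl, ?_⟩
    by_contra hcon
    apply h
    simp [wt, cell, fixd, hcon]
  | _ => exact absurd (by simp [wt, cell, fixd]) h

theorem edge_snk {j : Fin n} {b : Vx c n} (h : wt K x (.snk j) b ≠ ⊤) : False := by
  apply h
  cases b <;> simp [wt, cell, fixd]

theorem walk_rtg (w : Graph N) : ∀ (l : List (Fin N)) (u v : Fin N), l.head? = some u →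
    l.getLast? = some v → walkWeight w l ≠ ⊤ →
    Relation.ReflTransGen (fun a b => w (a, b) ≠ ⊤) u v
  | [], u, v, h1, _, _ => by simp at h1
  | [a], u, v, h1, h2, _ => by
    simp only [List.head?_cons, Option.some.injEq] at h1
    simp only [List.getLast?_singleton, Option.some.injEq] at h2
    rw [← h1, ← h2]
  | a :: b :: l, u, v, h1, h2, h3 => by
    simp only [List.head?_cons, Option.some.injEq] at h1
    subst h1
    simp only [walkWeight] at h3
    have h4 : w (a, b) ≠ ⊤ := fun h => h3 (by rw [h, top_add])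
    have h5 : walkWeight w (b :: l) ≠ ⊤ := fun h => h3 (by rw [h, add_top])
    have h6 : (b :: l).getLast? = some v := by
      rw [← h2, List.getLast?_cons_cons]
    exact Relation.ReflTransGen.head h4 (walk_rtg w (b :: l) b v (by simp) h6 h5)

theorem dist_eq_top_iff {e : Vx c n → Fin N} (he : Function.Injective e) (i j : Fin n) :
    dist (graph K e x) (e (.src i)) (e (.snk j)) = ⊤ ↔ ¬ Conn K x i j := by
  constructor
  · rintro h ⟨s, v, u, h1, h2, h4⟩
    unfold Pool.Agent.H537R2.Apsp.dist at h
    rw [iInf_eq_top] at h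
    have h5 := h ⟨[e (.src i), e (.m0 s v), e (.m1 s u), e (.snk j)], by simp,
      by simp⟩
    simp only [walkWeight, graph_mk K x he] at h5
    have e1 : wt K x (.src i) (.m0 s v) = 1 := by simp [wt, cell, fixd, h1]
    have e2 : wt K x (.m0 s v) (.m1 s u) = 1 := by simp [wt, cell, h2]
    have e4 : wt K x (.m1 s u) (.snk j) = 1 := by simp [wt, cell, fixd, h4]
    rw [e1, e2, e4] at h5
    have h6 : ((1 + (1 + (1 + 0)) : ℕ) : ℕ∞) = ⊤ := by exact_mod_cast h5
    exact absurd h6 (ENat.natCast_ne_top _)
  · intro h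
    unfold Pool.Agent.H537R2.Apsp.dist
    rw [iInf_eq_top]
    rintro ⟨l, hl1, hl2⟩
    by_contra hcon
    apply h
    have h1 := walk_rtg (graph K e x) l _ _ hl1 hl2 hcon
    rcases Relation.ReflTransGen.cases_head h1 with h2 | ⟨q, h2, h3⟩
    · exact absurd (he h2) (by simp)
    obtain ⟨b, rfl, h4⟩ := edge K x he h2
    obtain ⟨s, v, rfl, hv⟩ := edge_src K x h4
    rcases Relation.ReflTransGen.cases_head h3 with h5 | ⟨q, h5, h6⟩
    · exact absurd (he h5) (by simp)
    obtain ⟨b, rfl, h7⟩ := edge K x he h5
    obtain ⟨u, rfl, hu⟩ := edge_m0 K x h7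
    rcases Relation.ReflTransGen.cases_head h6 with h8 | ⟨q, h8, h9⟩
    · exact absurd (he h8) (by simp)
    obtain ⟨b, rfl, h10⟩ := edge K x he h8
    obtain ⟨j', rfl, hj'⟩ := edge_m1 K x h10
    rcases Relation.ReflTransGen.cases_head h9 with h14 | ⟨q, h14, _⟩
    · have h15 := he h14
      simp only [Vx.snk.injEq] at h15
      subst h15
      exact ⟨s, v, u, hv, hu, hj'⟩
    · obtain ⟨b, rfl, h16⟩ := edge K x he h14
      exact (edge_snk K x h16).elim

end Pool.Agent.H537R2.Apsr
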