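import Pool.Agent.H537R2.Apsr.Core

/-!
# Choice of the parameters
-/

set_option linter.unusedSectionVars false
set_option maxHeartbeats 400000

namespace Pool.Agent.H537R2.Apsr

open Finset
open Pool.Agent.H537R2.Apsp (Prog Graph walkWeight dist SolvesAPSP)
open Pool.Agent.H537R2.Apsq (cnt cnt_mono cnt_nonneg cnt_congr cnt_avoid Cons exists_family)

theorem le_of_solves {σ : Type} {N : ℕ} (P : Prog σ (Fin N × Fin N) ℕ∞ (Outp N)) (T : ℕ)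
    (w : Graph N) (h : SolvesAPSP P T w) : N ^ 2 ≤ T := by
  classical
  obtain ⟨F, hF, hc⟩ := P.exists_finset w T 0 P.init
  have h1 : (univ : Finset (Fin N × Fin N)).image (fun p => (p, dist w p.1 p.2)) ⊆ F := by
    intro a ha
    obtain ⟨p, _, rfl⟩ := mem_image.1 ha
    have h2 : ((p.1, p.2), dist w p.1 p.2) ∈ P.outs w 0 P.init T := (h _ _ _).2 rfl
    rw [← hF] at h2
    exact_mod_cast h2
  have h2 := (card_le_card h1).trans hc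
  rw [card_image_of_injective _ (fun p q h => congrArg Prod.fst h), card_univ,
    Fintype.card_prod, Fintype.card_fin] at h2
  rwa [sq]

theorem alg1 (B y D z : ℕ) : (4 * (B * y)) * D * z = (B * D) * (4 * y) * z := by ring

theorem alg2 (T a b : ℕ) : T * (4 * 2 ^ a) * 2 ^ b = T * 2 ^ (2 + a + b) := by
  rw [pow_add, pow_add]; ring

theorem alg3 (B y : ℕ) : 2 * (2 * ((B + 1) * y)) = 4 * (B * y) + 4 * y := by ring

/-- The number of blocks. -/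
theorem num_blocks {ℓ φ κ r c y D B T : ℕ} (hr : r = κ + 3 * φ + 5) (hrc : r + c = 2 * ℓ - 12)
    (hℓφ : ℓ + 1 ≤ 2 ^ φ) (hy : y = (ℓ + 1) * 2 ^ (r + 13)) (hD : D = 2 ^ (r + c - 2 * φ - 1))
    (hBD : B * D ≤ T) (h1 : κ + 4 * φ + 20 ≤ 2 * ℓ)
    (hT : T * 2 ^ (κ + 6 * φ + 33) ≤ 2 ^ (4 * ℓ)) : 2 * ((B + 1) * y) ≤ 2 ^ (2 * ℓ) := by
  have hD0 : 0 < D := by rw [hD]; positivity
  have hy1 : y ≤ 2 ^ (κ + 4 * φ + 18) := by
    rw [hy]
    calc (ℓ + 1) * 2 ^ (r + 13) ≤ 2 ^ φ * 2 ^ (r + 13) := Nat.mul_le_mul_right _ hℓφ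
      _ = 2 ^ (φ + (r + 13)) := (pow_add _ _ _).symm
      _ ≤ 2 ^ (κ + 4 * φ + 18) := Nat.pow_le_pow_right (by norm_num) (by omega)
  have hBy : 4 * (B * y) ≤ 2 ^ (2 * ℓ) := by
    have h2 : 2 ^ (2 * ℓ) * D * 2 ^ (2 * φ + 13) = 2 ^ (4 * ℓ) := by
      rw [hD, ← pow_add, ← pow_add,
        show 2 * ℓ + (r + c - 2 * φ - 1) + (2 * φ + 13) = 4 * ℓ by omega]
    have h3 : (4 * (B * y)) * D * 2 ^ (2 * φ + 13) ≤ 2 ^ (2 * ℓ) * D * 2 ^ (2 * φ + 13) := by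
      rw [h2, alg1 B y D]
      calc (B * D) * (4 * y) * 2 ^ (2 * φ + 13)
          ≤ T * (4 * 2 ^ (κ + 4 * φ + 18)) * 2 ^ (2 * φ + 13) :=
            Nat.mul_le_mul_right _ (Nat.mul_le_mul hBD (Nat.mul_le_mul_left _ hy1))
        _ = T * 2 ^ (2 + (κ + 4 * φ + 18) + (2 * φ + 13)) := alg2 T _ _
        _ = T * 2 ^ (κ + 6 * φ + 33) := by
            rw [show 2 + (κ + 4 * φ + 18) + (2 * φ + 13) = κ + 6 * φ + 33 by omega]
        _ ≤ 2 ^ (4 * ℓ) := hT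
    exact Nat.le_of_mul_le_mul_right (Nat.le_of_mul_le_mul_right h3 (by positivity)) hD0
  have hy2 : 4 * y ≤ 2 ^ (2 * ℓ) := by
    calc 4 * y ≤ 4 * 2 ^ (κ + 4 * φ + 18) := Nat.mul_le_mul_left _ hy1
      _ = 2 ^ (2 + (κ + 4 * φ + 18)) := by rw [pow_add 2 2]; norm_num
      _ ≤ 2 ^ (2 * ℓ) := Nat.pow_le_pow_right (by norm_num) (by omega)
  have := alg3 B y
  omega

/-- The union bound over the blocks and the states. -/
theorem num_union {ℓ S B y C : ℕ} {β E : ℝ} (hS3 : 3 ≤ S) (hℓS : ℓ ≤ S) (hy0 : 1 ≤ y)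
    (hBn : 2 * ((B + 1) * y) ≤ 2 ^ (2 * ℓ)) (hC : C ≤ 2 ^ S) (hβ : β = Real.exp (-E))
    (hE : ((6 * S : ℕ) : ℝ) ≤ E) : 8 * (((B + 1 : ℕ) : ℝ) * C * β) ≤ 1 := by
  have hβ0 : 0 ≤ β := by rw [hβ]; exact (Real.exp_pos _).le
  have hβ1 : β ≤ Real.exp (-((6 * S : ℕ) : ℝ)) := by
    rw [hβ]
    exact Real.exp_le_exp.2 (neg_le_neg hE)
  have hB1 : B + 1 ≤ 2 ^ (2 * S) := by
    have h2 : (B + 1) * 1 ≤ (B + 1) * y := Nat.mul_le_mul_left _ hy0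
    calc B + 1 ≤ 2 ^ (2 * ℓ) := by omega
      _ ≤ 2 ^ (2 * S) := Nat.pow_le_pow_right (by norm_num) (by omega)
  have hcomb : 8 * ((B + 1) * C) ≤ 2 ^ (6 * S) := by
    calc 8 * ((B + 1) * C) ≤ 2 ^ (3 * S) * (2 ^ (2 * S) * 2 ^ S) := by
          apply Nat.mul_le_mul _ (Nat.mul_le_mul hB1 hC)
          calc 8 = 2 ^ 3 := by norm_num
            _ ≤ 2 ^ (3 * S) := Nat.pow_le_pow_right (by norm_num) (by omega)
      _ = 2 ^ (6 * S) := by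
          rw [← pow_add, ← pow_add, show 3 * S + (2 * S + S) = 6 * S by ring]
  have h2 : ((2 : ℝ) ^ (6 * S)) ≤ Real.exp ((6 * S : ℕ) : ℝ) := by
    have h3 : (2 : ℝ) ≤ Real.exp 1 := by linarith [Real.exp_one_gt_d9]
    calc ((2 : ℝ) ^ (6 * S)) ≤ (Real.exp 1) ^ (6 * S) := pow_le_pow_left₀ (by norm_num) h3 _
      _ = Real.exp ((6 * S : ℕ) : ℝ) := by rw [← Real.exp_nat_mul, mul_one]
  have hcomb' : 8 * (((B + 1 : ℕ) : ℝ) * C) ≤ 2 ^ (6 * S) := by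
    exact_mod_cast hcomb
  calc 8 * (((B + 1 : ℕ) : ℝ) * C * β)
      = 8 * (((B + 1 : ℕ) : ℝ) * C) * β := by ring
    _ ≤ 2 ^ (6 * S) * β := mul_le_mul_of_nonneg_right hcomb' hβ0
    _ ≤ Real.exp ((6 * S : ℕ) : ℝ) * Real.exp (-((6 * S : ℕ) : ℝ)) :=
        mul_le_mul h2 hβ1 hβ0 (Real.exp_pos _).le
    _ = 1 := by rw [← Real.exp_add, add_neg_cancel, Real.exp_zero]

/-- The bound with explicit parameters. -/
theorem det_aux {N L φ ℓ κ S T : ℕ} (hN : 2 ^ L ≤ N) (hℓ : L = ℓ + φ + 3)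
    (hφ : L + 1 ≤ 2 ^ φ) (hφ1 : 1 ≤ φ) (hκ : 6 * S ≤ 2 ^ κ)
    (hS : L ≤ S) (hS3 : 3 ≤ S) (hℓ6 : 6 ≤ ℓ) (h1 : κ + 4 * φ + 20 ≤ 2 * ℓ)
    (hT : T * 2 ^ (κ + 6 * φ + 33) ≤ 2 ^ (4 * ℓ)) :
    ∃ (c m : ℕ) (K : ℕ → Fin (2 ^ ℓ) → Finset (Fin (2 ^ ℓ))) (e : Vx c (2 ^ ℓ) → Fin N),
      Function.Injective e ∧
      ∀ (σ : Type) (_ : Fintype σ) (P : Prog σ (Fin N × Fin N) ℕ∞ (Outp N)),
      Fintype.card σ ≤ 2 ^ S →
      2 * cnt (fun x : Jx c (2 ^ ℓ) → Fin (2 ^ m) => SolvesAPSP P T (graph K e x)) ≤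
        cnt (fun _ : Jx c (2 ^ ℓ) → Fin (2 ^ m) => True) := by
  classical
  obtain ⟨m, hm⟩ : ∃ m, m + 13 + κ + 2 * φ = 2 * ℓ := ⟨2 * ℓ - 13 - κ - 2 * φ, by omega⟩
  obtain ⟨c, hc⟩ : ∃ c, c + φ + 4 = m := ⟨m - 4 - φ, by omega⟩
  have hφ2 : 2 ^ (φ + 1) = 2 * 2 ^ φ := by rw [pow_succ]; ring
  have hc1 : c + 1 ≤ 2 ^ (φ + 1) := by omega
  choose K hK1 hK2 using exists_family ℓ φ (by omega) hφ1
  obtain ⟨e, he⟩ := exists_embedding (c := c) (n := 2 ^ ℓ) (N := N) (by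
    calc 2 * 2 ^ ℓ + 2 * ((c + 1) * 2 ^ ℓ) = (2 + 2 * (c + 1)) * 2 ^ ℓ := by ring
      _ ≤ (8 * 2 ^ φ) * 2 ^ ℓ := Nat.mul_le_mul_right _ (by omega)
      _ = 2 ^ L := by rw [hℓ, pow_add, pow_add]; ring
      _ ≤ N := hN)
  refine ⟨c, m, K, e, he, ?_⟩
  intro σ _ P hσ
  obtain ⟨r, hr⟩ : ∃ r, r = κ + 3 * φ + 5 := ⟨_, rfl⟩
  have hrc : r + c = 2 * ℓ - 12 := by omega
  obtain ⟨y, hy⟩ : ∃ y, y = (ℓ + 1) * 2 ^ (r + 13) := ⟨_, rfl⟩
  obtain ⟨D, hD⟩ : ∃ D, D = 2 ^ (r + c - 2 * φ - 1) := ⟨_, rfl⟩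
  have hD0 : 0 < D := by rw [hD]; positivity
  obtain ⟨B, hB⟩ : ∃ B, B = T / D := ⟨_, rfl⟩
  have hTB : T ≤ (B + 1) * D := by
    have := Nat.lt_mul_div_succ T hD0
    rw [mul_comm, ← hB] at this
    exact this.le
  have hBD : B * D ≤ T := by rw [hB]; exact Nat.div_mul_le_self T D
  have hy0 : 1 ≤ y := by rw [hy]; exact Nat.succ_le_of_lt (by positivity)
  have hBn := num_blocks hr hrc (by omega) hy hD hBD h1 hT
  obtain ⟨β, hβ⟩ : ∃ β : ℝ, β = Real.exp (-((2 : ℝ) ^ (r + c) / 2 ^ (2 * φ + 1 + m))) := ⟨_, rfl⟩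
  have hβ0 : 0 ≤ β := by rw [hβ]; exact (Real.exp_pos _).le
  have hE : ((6 * S : ℕ) : ℝ) ≤ (2 : ℝ) ^ (r + c) / 2 ^ (2 * φ + 1 + m) := by
    rw [le_div_iff₀ (by positivity)]
    have h1 : (2 : ℝ) ^ (r + c) = 2 ^ κ * 2 ^ (2 * φ + 1 + m) := by
      rw [← pow_add, show κ + (2 * φ + 1 + m) = r + c by omega]
    rw [h1]
    have h2 : ((6 * S : ℕ) : ℝ) ≤ 2 ^ κ := by exact_mod_cast hκ
    exact mul_le_mul_of_nonneg_right h2 (by positivity)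
  have hβ2 := num_union hS3 (by omega : ℓ ≤ S) hy0 hBn hσ hβ hE
  have hBn' : 2 * ((B + 1) * y) ≤ (2 ^ ℓ) ^ 2 := by
    rw [← pow_mul, mul_comm ℓ 2]
    exact hBn
  have hcM : 8 * ((c + 1) * 2 ^ c) ≤ 2 ^ m := by
    calc 8 * ((c + 1) * 2 ^ c) ≤ 8 * (2 ^ (φ + 1) * 2 ^ c) :=
          Nat.mul_le_mul_left _ (Nat.mul_le_mul_right _ hc1)
      _ = 2 ^ m := by
          rw [← hc, pow_add 2 (c + φ), pow_add 2 c, hφ2]; ring
  refine core P (by positivity) (by positivity) K hK1 hcM he y D β hβ0 ?_ B T hTB hBn' hβ2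
  intro Q ρ R hQ hR
  rw [hβ]
  rw [hD] at hQ
  rw [hy] at hR
  exact leaf K hK2 hℓ6 (by omega) (by omega) Q ρ hQ R hR

/-- The lower bound for deterministic non-uniform algorithms, on average. -/
theorem det_bound {N S T : ℕ} (hN : 64 ≤ Nat.log 2 N) (hS : Nat.log 2 N ≤ S) (hT : N ^ 2 ≤ T)
    (h2 : 2 ^ 63 * (T * S * (Nat.log 2 N) ^ 10) ≤ N ^ 4) :
    ∃ (c m ℓ : ℕ) (K : ℕ → Fin (2 ^ ℓ) → Finset (Fin (2 ^ ℓ))) (e : Vx c (2 ^ ℓ) → Fin N),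
      Function.Injective e ∧
      ∀ (σ : Type) (_ : Fintype σ) (P : Prog σ (Fin N × Fin N) ℕ∞ (Outp N)),
      Fintype.card σ ≤ 2 ^ S →
      2 * cnt (fun x : Jx c (2 ^ ℓ) → Fin (2 ^ m) => SolvesAPSP P T (graph K e x)) ≤
        cnt (fun _ : Jx c (2 ^ ℓ) → Fin (2 ^ m) => True) := by
  set L := Nat.log 2 N with hL
  have hN0 : N ≠ 0 := by
    rintro rfl
    simp at hL
    omega
  have hNL : 2 ^ L ≤ N := Nat.pow_log_le_self 2 hN0
  have hNL' : N < 2 ^ (L + 1) := Nat.lt_pow_succ_log_self (by norm_num) _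
  set φ := Nat.log 2 L + 1 with hφ
  have hφ1 : L < 2 ^ φ := Nat.lt_pow_succ_log_self (by norm_num) _
  have hφ2 : 2 ^ φ ≤ 2 * L := by
    rw [hφ, pow_succ, mul_comm]
    exact Nat.mul_le_mul_left _ (Nat.pow_log_le_self 2 (by omega))
  set κ := Nat.log 2 (6 * S) + 1 with hκ
  have hκ1 : 6 * S < 2 ^ κ := Nat.lt_pow_succ_log_self (by norm_num) _
  have hκ2 : 2 ^ κ ≤ 12 * S := by
    have : 2 ^ Nat.log 2 (6 * S) ≤ 6 * S := Nat.pow_log_le_self 2 (by omega)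
    rw [hκ, pow_succ]
    omega
  have hN2 : 2 ^ 63 * (S * L ^ 10) ≤ N ^ 2 := by
    have h3 : (2 ^ 63 * (S * L ^ 10)) * N ^ 2 ≤ N ^ 2 * N ^ 2 := by
      calc (2 ^ 63 * (S * L ^ 10)) * N ^ 2 ≤ (2 ^ 63 * (S * L ^ 10)) * T :=
            Nat.mul_le_mul_left _ hT
        _ = 2 ^ 63 * (T * S * L ^ 10) := by ring
        _ ≤ N ^ 4 := h2
        _ = N ^ 2 * N ^ 2 := by ring
    exact Nat.le_of_mul_le_mul_right h3 (by positivity)
  -- a lower bound for `ℓ`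
  have hφL : φ + 3 + 6 ≤ L := by
    have h3 : Nat.log 2 L ≤ L - 10 := by
      have h4 : L < 2 ^ (L - 9) := by
        have h5 : ∀ j, 64 + j < 2 ^ (55 + j) := by
          intro j
          induction j with
          | zero => norm_num
          | succ j ih =>
            rw [show 55 + (j + 1) = (55 + j) + 1 by ring, pow_succ]
            omega
        obtain ⟨j, hj⟩ := Nat.exists_eq_add_of_le hN
        rw [hj, show 64 + j - 9 = 55 + j by omega]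
        exact h5 j
      have h5 := Nat.log_lt_of_lt_pow (by omega) h4
      omega
    omega
  obtain ⟨ℓ, hℓ⟩ : ∃ ℓ, L = ℓ + φ + 3 := ⟨L - φ - 3, by omega⟩
  have h1 : κ + 4 * φ + 20 ≤ 2 * ℓ := by
    have h3 : 2 ^ (κ + 4 * φ + 20) * 2 ^ (2 * φ + 8) ≤ 2 ^ (2 * ℓ) * 2 ^ (2 * φ + 8) := by
      calc 2 ^ (κ + 4 * φ + 20) * 2 ^ (2 * φ + 8) = 2 ^ κ * (2 ^ φ) ^ 6 * 2 ^ 28 := by
            rw [← pow_mul, ← pow_add, ← pow_add, ← pow_add]; congr 1; ring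
        _ ≤ (12 * S) * (2 * L) ^ 6 * 2 ^ 28 := by gcongr
        _ = (12 * 2 ^ 34) * (S * L ^ 6) := by ring
        _ ≤ 2 ^ 63 * (S * L ^ 10) := by
            apply Nat.mul_le_mul (by norm_num)
            apply Nat.mul_le_mul_left
            exact Nat.pow_le_pow_right (by omega) (by norm_num)
        _ ≤ N ^ 2 := hN2
        _ ≤ (2 ^ (L + 1)) ^ 2 := Nat.pow_le_pow_left hNL'.le 2
        _ = 2 ^ (2 * ℓ) * 2 ^ (2 * φ + 8) := by
            rw [← pow_mul, ← pow_add, hℓ]; congr 1; ring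
    have h4 := Nat.le_of_mul_le_mul_right h3 (by positivity)
    exact (Nat.pow_le_pow_iff_right (by norm_num : 1 < 2)).1 h4
  have hT' : T * 2 ^ (κ + 6 * φ + 33) ≤ 2 ^ (4 * ℓ) := by
    have h3 : T * 2 ^ (κ + 6 * φ + 33) * 2 ^ (4 * φ + 16) ≤ 2 ^ (4 * ℓ) * 2 ^ (4 * φ + 16) := by
      calc T * 2 ^ (κ + 6 * φ + 33) * 2 ^ (4 * φ + 16)
          = T * 2 ^ κ * (2 ^ φ) ^ 10 * 2 ^ 49 := by
            rw [← pow_mul, mul_assoc, ← pow_add, mul_assoc (T * 2 ^ κ), ← pow_add,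
              mul_assoc, ← pow_add]
            congr 2
            ring
        _ ≤ T * (12 * S) * (2 * L) ^ 10 * 2 ^ 49 := by gcongr
        _ = (12 * 2 ^ 59) * (T * S * L ^ 10) := by ring
        _ ≤ 2 ^ 63 * (T * S * L ^ 10) := Nat.mul_le_mul_right _ (by norm_num)
        _ ≤ N ^ 4 := h2
        _ ≤ (2 ^ (L + 1)) ^ 4 := Nat.pow_le_pow_left hNL'.le 4
        _ = 2 ^ (4 * ℓ) * 2 ^ (4 * φ + 16) := by
            rw [← pow_mul, ← pow_add, hℓ]; congr 1; ring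
    exact Nat.le_of_mul_le_mul_right h3 (by positivity)
  obtain ⟨c, m, K, e, he, h⟩ := det_aux (N := N) (S := S) (T := T) hNL hℓ (by omega) (by omega)
    hκ1.le hS (by omega) (by omega) h1 hT'
  exact ⟨c, m, ℓ, K, e, he, h⟩

/-- The lower bound for randomized non-uniform algorithms. -/
theorem rand_bound : ∃ c : ℕ, ∀ᶠ N : ℕ in Filter.atTop, ∀ S T : ℕ, Nat.log 2 N ≤ S →
    ∀ (σ : Type) (_ : Fintype σ), Fintype.card σ ≤ 2 ^ S →
    ∀ (Ω : Type) (_ : Fintype Ω) (P : Ω → Prog σ (Fin N × Fin N) ℕ∞ (Outp N)),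
      (∀ w : Graph N, (∀ p, w p = 1 ∨ w p = ⊤) →
        Nat.card Ω < 2 * Nat.card {r : Ω // SolvesAPSP (P r) T w}) →
      N ^ 4 < c * (T * S * (Nat.log 2 N) ^ 10) := by
  classical
  refine ⟨2 ^ 63, ?_⟩
  filter_upwards [Filter.eventually_ge_atTop (2 ^ 64)] with N hN S T hS σ _ hσ Ω _ P hP
  by_contra hcon
  push Not at hcon
  have hlog : 64 ≤ Nat.log 2 N := Nat.le_log_of_pow_le (by norm_num) hN
  have hT : N ^ 2 ≤ T := by
    have h1 := hP (fun _ => ⊤) (fun _ => Or.inr rfl)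
    have h2 : 0 < Nat.card {r : Ω // SolvesAPSP (P r) T (fun _ => ⊤ : Graph N)} := by omega
    obtain ⟨⟨r, hr⟩⟩ := (Nat.card_pos_iff.1 h2).1
    exact le_of_solves (P r) T _ hr
  obtain ⟨c, m, ℓ, K, e, he, hdet⟩ := det_bound hlog hS hT hcon
  set X := Jx c (2 ^ ℓ) → Fin (2 ^ m)
  have h1 : ∀ r : Ω, 2 * (Nat.card {x : X // SolvesAPSP (P r) T (graph K e x)} : ℝ) ≤
      Nat.card {x : X // True} := fun r => hdet σ _ (P r) hσ
  have hX : Nat.card {x : X // True} = Fintype.card X := by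
    rw [Nat.card_eq_fintype_card, Fintype.card_subtype_true]
  have h2 : ∀ x : X, Nat.card Ω < 2 * Nat.card {r : Ω // SolvesAPSP (P r) T (graph K e x)} :=
    fun x => hP _ fun p => graph_eq K e x p
  have h3 : ∑ x : X, Nat.card {r : Ω // SolvesAPSP (P r) T (graph K e x)} =
      ∑ r : Ω, Nat.card {x : X // SolvesAPSP (P r) T (graph K e x)} := by
    simp only [Nat.card_eq_fintype_card, Fintype.card_subtype, Finset.card_filter]
    exact sum_comm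
  have h4 : ∑ _x : X, Nat.card Ω <
      ∑ x : X, 2 * Nat.card {r : Ω // SolvesAPSP (P r) T (graph K e x)} := by
    apply sum_lt_sum_of_nonempty
    · exact ⟨fun _ => ⟨0, by positivity⟩, mem_univ _⟩
    · intro x _
      exact h2 x
  have h5 : 2 * ∑ r : Ω, Nat.card {x : X // SolvesAPSP (P r) T (graph K e x)} ≤
      Nat.card Ω * Fintype.card X := by
    rw [mul_sum]
    calc _ ≤ ∑ _r : Ω, Fintype.card X := by
          apply sum_le_sum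
          intro r _
          have := h1 r
          rw [hX] at this
          exact_mod_cast this
      _ = _ := by rw [sum_const, card_univ, smul_eq_mul, Nat.card_eq_fintype_card (α := Ω)]
  rw [← mul_sum, h3] at h4
  rw [sum_const, card_univ, smul_eq_mul] at h4
  rw [mul_comm] at h4
  omega

end Pool.Agent.H537R2.Apsr
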